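import Mathlib
import Pool.Agent.Helper557.TF.Core
import Pool.Agent.Helper557.TF.Diatomic
import Pool.Agent.Helper557.TF.All

set_option autoImplicit false

open MeasureTheory Set Filter Topology
open scoped RealInnerProductSpace

namespace Pool.Agent.Results.MP_9cf0c9_mp.IonicPressure

/-- Physical space. -/
abbrev E3 := EuclideanSpace ℝ (Fin 3)

/-- Admissible densities: measurable, nonnegative, integrable, with integrable `5/3`-power. -/
def Adm (ρ : E3 → ℝ) : Prop :=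
  Measurable ρ ∧ (∀ x, 0 ≤ ρ x) ∧ Integrable ρ ∧ Integrable (fun x => ρ x ^ (5/3 : ℝ))

/-- The Thomas-Fermi functional `ξ(ρ)` for nuclear charges `z` at positions `R`. -/
noncomputable def xi {k : ℕ} (z : Fin k → ℝ) (R : Fin k → E3) (ρ : E3 → ℝ) : ℝ :=
  3/5 * (∫ x, ρ x ^ (5/3 : ℝ)) - (∫ x, (∑ j, z j / ‖x - R j‖) * ρ x)
    + 1/2 * (∫ x, ∫ y, ρ x * ρ y / ‖x - y‖)
    + ∑ i, ∑ j ∈ Finset.Ioi i, z i * z j / ‖R i - R j‖

/-- The values of `ξ` on admissible densities of mass `lam`. -/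
def energies {k : ℕ} (z : Fin k → ℝ) (R : Fin k → E3) (lam : ℝ) : Set ℝ :=
  {E | ∃ ρ, Adm ρ ∧ ∫ x, ρ x = lam ∧ xi z R ρ = E}

/-- The Thomas-Fermi energy `e(lam, l)` of the configuration `l R`. -/
noncomputable def e {k : ℕ} (z : Fin k → ℝ) (R : Fin k → E3) (lam l : ℝ) : ℝ :=
  sInf (energies z (fun i => l • R i) lam)

/-- The pressure `P(l) = -(1/(3 l^2)) ∂e/∂l`. -/
noncomputable def P {k : ℕ} (z : Fin k → ℝ) (R : Fin k → E3) (lam l : ℝ) : ℝ :=
  -(1 / (3 * l ^ 2)) * deriv (e z R lam) l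

/-- The pressure is nonnegative: `e(lam, ·)` is nonincreasing on `(0, ∞)`, and
`P = -(1/(3 l^2)) ∂e/∂l ≥ 0` at every `l > 0` at which `e(lam, ·)` has a derivative. -/
def PressureNonneg {k : ℕ} (z : Fin k → ℝ) (R : Fin k → E3) (lam : ℝ) : Prop :=
  AntitoneOn (e z R lam) (Ioi 0) ∧
  ∀ l : ℝ, 0 < l → ∀ d : ℝ, HasDerivAt (e z R lam) d l → 0 ≤ -(1 / (3 * l ^ 2)) * d

/-- The reciprocal compressibility `-(l/3) ∂P/∂l` is nonnegative: `e(lam, ·)` is convex on
`(0, ∞)`, and `-(l/3) p' ≥ 0` whenever `e(lam, ·)` is differentiable near `l > 0` and the pressure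
has derivative `p'` at `l`. -/
def CompressibilityNonneg {k : ℕ} (z : Fin k → ℝ) (R : Fin k → E3) (lam : ℝ) : Prop :=
  ConvexOn ℝ (Ioi 0) (e z R lam) ∧
  ∀ l : ℝ, 0 < l → (∀ᶠ x in 𝓝 l, DifferentiableAt ℝ (e z R lam) x) →
    ∀ p' : ℝ, HasDerivAt (P z R lam) p' l → 0 ≤ -(l / 3) * p'

/-- **Ionic Thomas-Fermi molecules.** For all `k`, all charges `z ≥ 0`, all distinct positions and
every `lam ≥ 0`: the infimum defining `e` is over a nonempty set bounded below, and the pressure is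
nonnegative at every scale. For two equal nuclei the reciprocal compressibility is nonnegative as
well. -/
theorem result {k : ℕ} (z : Fin k → ℝ) (hz : ∀ i, 0 ≤ z i) (R : Fin k → E3)
    (hR : Function.Injective R) (lam : ℝ) (hlam : 0 ≤ lam) :
    (∀ l : ℝ, (energies z (fun i => l • R i) lam).Nonempty ∧
      BddBelow (energies z (fun i => l • R i) lam)) ∧
    PressureNonneg z R lam ∧
    ((k = 2 ∧ ∀ i j, z i = z j) → CompressibilityNonneg z R lam) := by
  refine ⟨fun l => ⟨?_, ?_⟩, ?_, ?_⟩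
  · exact Pool.Agent.Helper557.TFP.en_nonempty z (fun i => l • R i) lam hlam
  · exact Pool.Agent.Helper557.TFP.en_bdd z hz (fun i => l • R i) lam
  · exact Pool.Agent.Helper557.TFP.pressure_all z hz R hR lam hlam
  · rintro ⟨hk, hzz⟩
    subst hk
    obtain ⟨h1, h2, h3, h4⟩ :=
      Pool.Agent.Helper557.TFP.diatomic z (hz 0) (hzz 0 1) R hR lam hlam
    exact ⟨h2, h4⟩

end Pool.Agent.Results.MP_9cf0c9_mp.IonicPressure
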