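import Mathlib
import Pool.Agent.Helper557.TF.Core

set_option autoImplicit false

open MeasureTheory Set
open scoped RealInnerProductSpace

namespace Pool.Agent.Results.MP_9cf0c9_mp.PressureNonneg

/-- Physical space. -/
abbrev E3 := EuclideanSpace ℝ (Fin 3)

/-- Admissible densities: measurable, nonnegative, integrable, with integrable `5/3`-power. -/
def Adm (ρ : E3 → ℝ) : Prop :=
  Measurable ρ ∧ (∀ x, 0 ≤ ρ x) ∧ Integrable ρ ∧ Integrable (fun x => ρ x ^ (5/3 : ℝ))

/-- The Thomas-Fermi functional `ξ(ρ)` for nuclear charges `z` at positions `R`. -/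
noncomputable def xi {k : ℕ} (z : Fin k → ℝ) (R : Fin k → E3) (ρ : E3 → ℝ) : ℝ :=
  3/5 * (∫ x, ρ x ^ (5/3 : ℝ)) - (∫ x, (∑ j, z j / ‖x - R j‖) * ρ x)
    + 1/2 * (∫ x, ∫ y, ρ x * ρ y / ‖x - y‖)
    + ∑ i, ∑ j ∈ Finset.Ioi i, z i * z j / ‖R i - R j‖

/-- The values of `ξ` on admissible densities of mass `lam`. -/
def energies {k : ℕ} (z : Fin k → ℝ) (R : Fin k → E3) (lam : ℝ) : Set ℝ :=
  {E | ∃ ρ, Adm ρ ∧ ∫ x, ρ x = lam ∧ xi z R ρ = E}

/-- The Thomas-Fermi energy `e(lam, l)` of the configuration `l R`. -/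
noncomputable def e {k : ℕ} (z : Fin k → ℝ) (R : Fin k → E3) (lam l : ℝ) : ℝ :=
  sInf (energies z (fun i => l • R i) lam)

/-- The pressure is nonnegative: `e(lam, ·)` is nonincreasing on `(0, ∞)`, and
`P = -(1/(3 l^2)) ∂e/∂l ≥ 0` at every `l > 0` at which `e(lam, ·)` has a derivative. -/
def PressureNonneg {k : ℕ} (z : Fin k → ℝ) (R : Fin k → E3) (lam : ℝ) : Prop :=
  AntitoneOn (e z R lam) (Ioi 0) ∧
  ∀ l : ℝ, 0 < l → ∀ d : ℝ, HasDerivAt (e z R lam) d l → 0 ≤ -(1 / (3 * l ^ 2)) * d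

/-- **Nonnegative pressure of ionic Thomas-Fermi molecules for several classes of positions.**
For all charges `z ≥ 0`, distinct positions and every `lam ≥ 0` the infimum defining `e` is over a
nonempty set bounded below, and the pressure is nonnegative for every scale `l` as soon as
(a) there is a point `c` such that every nucleus `R j ≠ c` is the unique nucleus farthest in its
own direction from `c`; in particular (b) if there are at most three nuclei, or the nuclei lie on a
sphere, or they are affinely independent. -/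
theorem result {k : ℕ} (z : Fin k → ℝ) (hz : ∀ i, 0 ≤ z i) (R : Fin k → E3)
    (hR : Function.Injective R) (lam : ℝ) (hlam : 0 ≤ lam) :
    (∀ l : ℝ, (energies z (fun i => l • R i) lam).Nonempty ∧
      BddBelow (energies z (fun i => l • R i) lam)) ∧
    ((∃ c : E3, ∀ i j, i ≠ j → R j = c ∨ ⟪R i - c, R j - c⟫ < ‖R j - c‖ ^ 2) →
      PressureNonneg z R lam) ∧
    ((k ≤ 3 ∨ (∃ (c : E3) (r : ℝ), ∀ i, ‖R i - c‖ = r) ∨ AffineIndependent ℝ R) →
      PressureNonneg z R lam) := by
  have key : ∀ c : E3, (∀ i j, i ≠ j → R j = c ∨ ⟪R i - c, R j - c⟫ < ‖R j - c‖ ^ 2) →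
      PressureNonneg z R lam := by
    intro c hc
    exact Pool.Agent.Helper557.TFP.pressure_nonneg z hz R hR c hc lam hlam
  refine ⟨fun l => ⟨?_, ?_⟩, ?_, ?_⟩
  · exact Pool.Agent.Helper557.TFP.en_nonempty z (fun i => l • R i) lam hlam
  · exact Pool.Agent.Helper557.TFP.en_bdd z hz (fun i => l • R i) lam
  · rintro ⟨c, hc⟩
    exact key c hc
  · intro h
    have h' : (∃ (c : E3) (r : ℝ), ∀ i, ‖R i - c‖ = r) ∨ AffineIndependent ℝ R ∨ k ≤ 3 := by
      rcases h with h | h | h
      · exact Or.inr (Or.inr h)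
      · exact Or.inl h
      · exact Or.inr (Or.inl h)
    obtain ⟨c, hc⟩ := Pool.Agent.Helper557.TFP.exists_centre R hR h'
    exact key c hc

end Pool.Agent.Results.MP_9cf0c9_mp.PressureNonneg
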